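import Mathlib
import Pool.Agent.N616.NH.RX2
import Pool.Agent.N616.NH.Stm6

set_option autoImplicit false

/-! Valuation rings with `1 + m` inside the `ℓ`-th powers are not tame. -/

namespace Pool.Agent.U499.SH

open Pool.Agent.N616.NH

section

variable {K : Type} [Field K] {ℓ : ℕ}

/-- a valuation ring `O` with `1 + m` inside the `ℓ`-th powers, `ℓ ∈ O*` and `O* K*^ℓ ≠ K*` is not
tame if `K* / K*^ℓ` is not cyclic -/
theorem notTame_of (hℓ : ℓ.Prime) (hℓ0 : (ℓ : K) ≠ 0) (O : ValuationSubring K)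
    (hinv : (ℓ : K)⁻¹ ∈ O) (hone : ∀ x : K, x ∈ O → x⁻¹ ∉ O → ∃ y : K, y ^ ℓ = 1 + x)
    (htop : O.unitGroup ⊔ (powMonoidHom ℓ : Kˣ →* Kˣ).range ≠ ⊤)
    (hnc : ∀ a : Kˣ, ∃ b : Kˣ, b ∉ Subgroup.zpowers a ⊔ (powMonoidHom ℓ : Kˣ →* Kˣ).range) :
    NotTame ℓ O := by
  have hmem : ∀ (b c : Kˣ), O.valuation (b : K) = O.valuation (c : K) → b * c⁻¹ ∈ O.unitGroup := by
    intro b c e
    rw [ValuationSubring.mem_unitGroup_iff]
    have hc : O.valuation (c : K) ≠ 0 := by
      rw [Ne, Valuation.zero_iff]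
      exact c.ne_zero
    rw [Units.val_mul, Units.val_inv_eq_inv_val, map_mul, map_inv₀, e, mul_inv_cancel₀ hc]
  by_cases hcyc : ∃ a : K, a ≠ 0 ∧ ∀ b : K, ∃ (c : K) (i : ℕ),
      O.valuation b = O.valuation c ^ ℓ * O.valuation a ^ i
  · obtain ⟨a, ha0, ha⟩ := hcyc
    -- a unit of `O` which is not an `ℓ`-th power
    obtain ⟨u, hu, hun⟩ : ∃ u ∈ O.unitGroup, u ∉ (powMonoidHom ℓ : Kˣ →* Kˣ).range := by
      by_contra hcon
      push Not at hcon
      obtain ⟨b, hb⟩ := hnc (Units.mk0 a ha0)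
      apply hb
      obtain ⟨c, i, e⟩ := ha b
      have hc0 : c ≠ 0 := by
        rintro rfl
        rw [map_zero, zero_pow hℓ.ne_zero, zero_mul, Valuation.zero_iff] at e
        exact b.ne_zero e
      have h1 : b * ((Units.mk0 c hc0) ^ ℓ * (Units.mk0 a ha0) ^ i)⁻¹ ∈ O.unitGroup := by
        apply hmem
        rw [e]
        push_cast
        rw [map_mul, map_pow, map_pow, Units.val_mk0, Units.val_mk0]
      have h2 := hcon _ h1
      have h3 : b = (Units.mk0 a ha0) ^ i *
          (b * ((Units.mk0 c hc0) ^ ℓ * (Units.mk0 a ha0) ^ i)⁻¹ * (Units.mk0 c hc0) ^ ℓ) := by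
        have h5 : (Units.mk0 a ha0) ^ i *
            (b * ((Units.mk0 c hc0) ^ ℓ * (Units.mk0 a ha0) ^ i)⁻¹ * (Units.mk0 c hc0) ^ ℓ) =
            b * (((Units.mk0 c hc0) ^ ℓ * (Units.mk0 a ha0) ^ i)⁻¹ *
              ((Units.mk0 c hc0) ^ ℓ * (Units.mk0 a ha0) ^ i)) := by ac_rfl
        rw [h5, inv_mul_cancel, mul_one]
      rw [h3]
      refine Subgroup.mul_mem_sup (Subgroup.pow_mem _ (Subgroup.mem_zpowers _) _) ?_
      exact Subgroup.mul_mem _ h2 ⟨Units.mk0 c hc0, rfl⟩
    left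
    refine ⟨ℓ, hℓ.two_le, le_rfl, ?_, ?_⟩
    · by_contra hcon
      push Not at hcon
      apply htop
      rw [eq_top_iff]
      intro t _
      obtain ⟨y, hy⟩ := hcon t
      have hy0 : y ≠ 0 := by
        rintro rfl
        rw [map_zero, zero_pow hℓ.ne_zero, Valuation.zero_iff] at hy
        exact t.ne_zero hy
      have h1 : t * ((Units.mk0 y hy0) ^ ℓ)⁻¹ ∈ O.unitGroup := by
        apply hmem
        rw [hy]
        push_cast
        rw [map_pow, Units.val_mk0]
      have h3 : t = t * ((Units.mk0 y hy0) ^ ℓ)⁻¹ * (Units.mk0 y hy0) ^ ℓ := by group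
      rw [h3]
      exact Subgroup.mul_mem_sup h1 ⟨Units.mk0 y hy0, rfl⟩
    · have huv : O.valuation (u : K) = 1 := (ValuationSubring.mem_unitGroup_iff O u).1 hu
      have huO : (u : K) ∈ O := (ValuationSubring.valuation_le_one_iff O _).1 huv.le
      have hchar : ((ℓ : ℕ) : IsLocalRing.ResidueField O) ≠ 0 := by
        intro h0
        have h1 : IsLocalRing.residue O ((ℓ : ℕ) : O) = 0 := by rw [map_natCast]; exact h0
        have h2 : ((ℓ : ℕ) : O) * (⟨(ℓ : K)⁻¹, hinv⟩ : O) = 1 := by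
          apply Subtype.ext
          push_cast
          exact mul_inv_cancel₀ hℓ0
        have h3 := congrArg (IsLocalRing.residue O) h2
        rw [map_mul, h1, zero_mul, map_one] at h3
        exact zero_ne_one h3
      refine RX2_.ext_kummer hℓ hchar (IsLocalRing.residue O ⟨u, huO⟩) (fun c hc => hun ?_)
      obtain ⟨y, rfl⟩ := IsLocalRing.residue_surjective c
      rw [← map_pow, RX2_.res_eq_iff] at hc
      change O.valuation ((y : K) ^ ℓ - u) < 1 at hc
      have hy1 : O.valuation ((y : K) ^ ℓ) = 1 := by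
        have h4 : O.valuation ((y : K) ^ ℓ) = O.valuation (u : K) := by
          apply Valuation.map_eq_of_sub_lt
          rw [huv]
          exact hc
        rw [h4, huv]
      have hy0 : (y : K) ≠ 0 := by
        intro e
        rw [e, zero_pow hℓ.ne_zero, map_zero] at hy1
        exact zero_ne_one hy1
      have hyp : (y : K) ^ ℓ ≠ 0 := pow_ne_zero _ hy0
      by_cases hx0 : (u : K) = (y : K) ^ ℓ
      · refine ⟨Units.mk0 (y : K) hy0, Units.ext ?_⟩
        show (y : K) ^ ℓ = u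
        exact hx0.symm
      · have hxne : ((u : K) - y ^ ℓ) / y ^ ℓ ≠ 0 := div_ne_zero (sub_ne_zero.2 hx0) hyp
        have hxv : O.valuation (((u : K) - y ^ ℓ) / y ^ ℓ) < 1 := by
          rw [map_div₀, hy1, div_one, Valuation.map_sub_swap]
          exact hc
        obtain ⟨z, hz⟩ := hone _ ((ValuationSubring.valuation_le_one_iff O _).1 hxv.le) (by
          intro h5
          have h6 := (ValuationSubring.valuation_le_one_iff O _).2 h5
          rw [map_inv₀] at h6
          have h7 : O.valuation (((u : K) - y ^ ℓ) / y ^ ℓ) ≠ 0 := by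
            rw [Ne, Valuation.zero_iff]
            exact hxne
          have h8 : 1 < (O.valuation (((u : K) - y ^ ℓ) / y ^ ℓ))⁻¹ := by
            rw [one_lt_inv₀ (zero_lt_iff.2 h7)]
            exact hxv
          exact absurd h6 (not_le.2 h8))
        have hzu : ((y : K) * z) ^ ℓ = u := by
          rw [mul_pow, hz]
          field_simp
          ring
        have hyz : (y : K) * z ≠ 0 := by
          intro e
          rw [e, zero_pow hℓ.ne_zero] at hzu
          exact u.ne_zero hzu.symm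
        exact ⟨Units.mk0 _ hyz, Units.ext hzu⟩
  · exact Or.inr ⟨ℓ, hℓ, le_rfl, hcyc⟩

/-- coarsenings -/
theorem coarse {O A : ValuationSubring K} (hOA : O ≤ A)
    (hone : ∀ x : K, x ∈ O → x⁻¹ ∉ O → ∃ y : K, y ^ ℓ = 1 + x) :
    ∀ x : K, x ∈ A → x⁻¹ ∉ A → ∃ y : K, y ^ ℓ = 1 + x := by
  intro x _ hx'
  have h1 : x⁻¹ ∉ O := fun h => hx' (hOA h)
  exact hone x ((O.mem_or_inv_mem x).resolve_right h1) h1

/-- a group of at least three square classes is not cyclic -/
theorem not_cyclic {K : Type} [Field K] (h : 2 < ((powMonoidHom 2 : Kˣ →* Kˣ).range).index)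
    (a : Kˣ) : ∃ b : Kˣ, b ∉ Subgroup.zpowers a ⊔ (powMonoidHom 2 : Kˣ →* Kˣ).range := by
  by_contra hcon
  push Not at hcon
  have hle : ((powMonoidHom 2 : Kˣ →* Kˣ).range).index ≤ 2 := by
    rw [Subgroup.index_eq_card]
    have hs : Function.Surjective (fun b : Bool =>
        (if b then (QuotientGroup.mk a : Kˣ ⧸ (powMonoidHom 2 : Kˣ →* Kˣ).range) else 1)) := by
      intro q
      obtain ⟨x, rfl⟩ := QuotientGroup.mk_surjective q
      obtain ⟨z, hz, s, hs, rfl⟩ := Subgroup.mem_sup.1 (hcon x)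
      obtain ⟨n, rfl⟩ := Subgroup.mem_zpowers_iff.1 hz
      have h1 : (QuotientGroup.mk (a ^ n * s) : Kˣ ⧸ (powMonoidHom 2 : Kˣ →* Kˣ).range) =
          QuotientGroup.mk (a ^ n) := by
        rw [QuotientGroup.eq, mul_inv_rev, inv_mul_cancel_right]
        exact Subgroup.inv_mem _ hs
      rcases Int.even_or_odd' n with ⟨m, hm | hm⟩
      · refine ⟨false, ?_⟩
        show 1 = _
        rw [h1, eq_comm, QuotientGroup.eq_one_iff]
        refine ⟨a ^ m, ?_⟩
        show (a ^ m) ^ 2 = a ^ n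
        rw [hm, ← zpow_natCast, ← zpow_mul, mul_comm]
        rfl
      · refine ⟨true, ?_⟩
        show QuotientGroup.mk a = _
        rw [h1, QuotientGroup.eq]
        refine ⟨a ^ m, ?_⟩
        show (a ^ m) ^ 2 = a⁻¹ * a ^ n
        rw [hm, ← zpow_natCast, ← zpow_mul, zpow_add, zpow_one, mul_comm (a ^ (2 * m)),
          inv_mul_cancel_left, mul_comm]
        rfl
    have h9 := Nat.card_le_card_of_surjective _ hs
    rw [show Nat.card Bool = 2 by simp] at h9
    exact h9
  omega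

end

end Pool.Agent.U499.SH
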