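import Mathlib
import Pool.Agent.U499.SH.Tame
import Pool.Agent.N616.NH.Stm3

set_option autoImplicit false

/-! Henselian valuation rings of fields of odd characteristic and squares. -/

namespace Pool.Agent.U499.SH

open Polynomial Pool.Agent.N616.NH

section

variable {K : Type} [Field K]

/-- `2` is a unit -/
theorem inv_two_mem {p : ℕ} (hp : p.Prime) [CharP K p] (h2 : (2 : K) ≠ 0)
    (A : ValuationSubring K) : (2 : K)⁻¹ ∈ A := by
  have hp2 : p ≠ 2 := by
    rintro rfl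
    apply h2
    exact_mod_cast CharP.cast_eq_zero K 2
  obtain ⟨m, hm⟩ := hp.odd_of_ne_two hp2
  have h3 : (2 : K) * ((m + 1 : ℕ) : K) = 1 := by
    have h4 : ((p : ℕ) : K) = 0 := CharP.cast_eq_zero K p
    rw [hm] at h4
    push_cast at h4 ⊢
    linear_combination h4
  have h5 : (2 : K)⁻¹ = ((m + 1 : ℕ) : K) := (eq_inv_of_mul_eq_one_right h3).symm
  rw [h5]
  exact natCast_mem A (m + 1)

/-- the one-units of a henselian valuation ring are squares if `2` is a unit -/
theorem sq_of_henselian (A : ValuationSubring K) (hA : HenselianLocalRing A) (h2 : (2 : K) ≠ 0)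
    (hinv : (2 : K)⁻¹ ∈ A) : ∀ x : K, x ∈ A → x⁻¹ ∉ A → ∃ y : K, y ^ 2 = 1 + x := by
  intro x hx hx'
  have h1 := hA.is_henselian (X ^ 2 - C (1 + (⟨x, hx⟩ : A))) (monic_X_pow_sub_C _ two_ne_zero) 1
    (by
      have e : eval (1 : A) (X ^ 2 - C (1 + (⟨x, hx⟩ : A))) = -(⟨x, hx⟩ : A) := by
        rw [eval_sub, eval_pow, eval_X, eval_C]
        ring
      rw [e]
      apply neg_mem
      rw [IsLocalRing.mem_maximalIdeal, mem_nonunits_iff]
      rintro ⟨u, hu⟩
      apply hx'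
      have h3 : x * ((↑(u⁻¹) : A) : K) = 1 := by
        have h4 : (u : A) * (↑(u⁻¹) : A) = 1 := u.mul_inv
        rw [hu] at h4
        exact congrArg Subtype.val h4
      rw [inv_eq_of_mul_eq_one_right h3]
      exact ((↑(u⁻¹) : A)).2)
    (by
      have e : eval (1 : A) (derivative (X ^ 2 - C (1 + (⟨x, hx⟩ : A)))) = (2 : A) := by
        simp
        norm_num
      rw [e]
      refine IsUnit.of_mul_eq_one (⟨(2 : K)⁻¹, hinv⟩ : A) (Subtype.ext ?_)
      show (2 : K) * (2 : K)⁻¹ = 1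
      exact mul_inv_cancel₀ h2)
  obtain ⟨y, hy, -⟩ := h1
  rw [IsRoot.def, eval_sub, eval_pow, eval_X, eval_C, sub_eq_zero] at hy
  exact ⟨y, congrArg Subtype.val hy⟩

/-- valuation rings with a value which is not divisible by two -/
theorem ne_top_of_value (A : ValuationSubring K) (t : K)
    (ht : ∀ y : K, A.valuation t ≠ A.valuation y ^ 2) :
    A.unitGroup ⊔ (powMonoidHom 2 : Kˣ →* Kˣ).range ≠ ⊤ := by
  intro e
  have ht0 : t ≠ 0 := by
    rintro rfl
    apply ht 0
    rw [map_zero, zero_pow two_ne_zero]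
  have h1 : Units.mk0 t ht0 ∈ A.unitGroup ⊔ (powMonoidHom 2 : Kˣ →* Kˣ).range := by
    rw [e]
    exact Subgroup.mem_top _
  obtain ⟨u, hu, s, ⟨f, hf⟩, hus⟩ := Subgroup.mem_sup.1 h1
  apply ht (f : K)
  have h3 : t = (u : K) * (f : K) ^ 2 := by
    have h4 := congrArg Units.val hus
    rw [← hf] at h4
    exact h4.symm
  rw [h3, map_mul, map_pow, (A.mem_unitGroup_iff u).1 hu, one_mul]

/-- non-tame rings up to two -/
theorem value_of_nt {A : ValuationSubring K} (h : NT' 2 A) :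
    ∃ t : K, ∀ y : K, A.valuation t ≠ A.valuation y ^ 2 := by
  rcases h with ⟨d, hd, t, ht⟩ | ⟨ℓ, hℓ, t₁, t₂, ht⟩
  · obtain rfl : d = 2 := le_antisymm hd ht.two_le
    exact ⟨t, ht.nd⟩
  · obtain rfl : ℓ = 2 := le_antisymm hℓ ht.prime.two_le
    exact ⟨t₁, ht.nd⟩

end

end Pool.Agent.U499.SH
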